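import Pool.Agent.Q270.EA.Fin
import Pool.Agent.TH573.SM.Main
import Pool.Agent.TH573.SM.Tower

/-!
Project EA (helper270): the self-correlations of almost every modification.
-/

set_option autoImplicit false

namespace Pool.Agent.Q270.EA

open Finset Filter Polynomial

lemma cesaro_eq {u v : ℕ → ℂ} (h : ∀ᶠ n in atTop, u n = v n)
    (hu : Tendsto (fun N : ℕ => (1 / (N : ℂ)) * ∑ n ∈ Icc 1 N, u n) atTop (nhds 0)) :
    Tendsto (fun N : ℕ => (1 / (N : ℂ)) * ∑ n ∈ Icc 1 N, v n) atTop (nhds 0) := by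
  have h1 : Tendsto (fun n => v (n + 1) - u (n + 1)) atTop (nhds 0) := by
    refine (tendsto_add_atTop_iff_nat 1 (f := fun n => v n - u n)).2 ?_
    refine tendsto_const_nhds.congr' ?_
    filter_upwards [h] with n hn
    rw [hn, sub_self]
  have h2 := h1.cesaro_smul
  have h3 := hu.add h2
  rw [add_zero] at h3
  refine h3.congr fun N => ?_
  rw [sum_Icc_one, sum_Icc_one, sum_sub_distrib, Complex.real_smul]
  push_cast
  ring

/-- the polynomial of a cube -/
noncomputable def cubeP (k : ℕ) (t : Fin k → ℤ) : ℤ[X] :=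
  ∏ s : Finset (Fin k), (X + C (∑ i ∈ s, t i))

lemma cubeP_ne (k : ℕ) (t : Fin k → ℤ) (ht : ND t) :
    ¬ ∃ (c : ℤ) (G : ℤ[X]), cubeP k t = C c * G ^ 2 := by
  rintro ⟨c, G, h⟩
  obtain ⟨R, hR⟩ : ∃ R, R = ∏ s ∈ (univ : Finset (Finset (Fin k))).erase ∅,
    (X + C (∑ i ∈ s, t i)) := ⟨_, rfl⟩
  have h1 : cubeP k t = X * R := by
    unfold cubeP
    rw [← mul_prod_erase univ _ (mem_univ ∅), hR]
    simp
  have h2 : R.eval 0 ≠ 0 := by
    rw [hR, eval_prod, prod_ne_zero_iff]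
    intro s hs h3
    rw [eval_add, eval_X, eval_C, zero_add] at h3
    have h4 : ∑ i ∈ s, t i = ∑ i ∈ (∅ : Finset (Fin k)), t i := by rw [h3]; simp
    exact (mem_erase.1 hs).1 (ht h4)
  have h3 : (derivative (cubeP k t)).eval 0 = R.eval 0 := by
    rw [h1]
    simp
  have h4 : (cubeP k t).eval 0 = 0 := by rw [h1]; simp
  rw [h] at h3 h4
  simp only [eval_mul, eval_C, eval_pow, derivative_mul, derivative_C, zero_mul, zero_add,
    derivative_pow, Nat.cast_ofNat] at h3 h4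
  rcases mul_eq_zero.1 h4 with h5 | h5
  · rw [h5] at h3
    simp at h3
    exact h2 h3.symm
  · have h6 : G.eval 0 = 0 := by simpa using h5
    simp [h6] at h3
    exact h2 h3.symm

lemma cubeP_eval (k : ℕ) (t : Fin k → ℤ) (n : ℤ) :
    ((cubeP k t).eval n).natAbs = ∏ s : Finset (Fin k), (n + ∑ i ∈ s, t i).natAbs := by
  unfold cubeP
  rw [eval_prod]
  show Int.natAbsHom _ = _
  rw [map_prod]
  refine prod_congr rfl fun s _ => ?_
  rw [eval_add, eval_X, eval_C]
  rfl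

/-- self-correlations of a function with Chowla's property for polynomials -/
lemma self_of (f : ℕ →*₀ ℤ)
    (h : ∀ F : ℤ[X], (¬ ∃ (c : ℤ) (G : ℤ[X]), F = C c * G ^ 2) →
      Tendsto (fun x : ℕ => (∑ n ∈ Icc 1 x, ((f (F.eval (n : ℤ)).natAbs : ℤ) : ℝ)) / x)
        atTop (nhds 0)) (k : ℕ) (t : Fin k → ℤ) (ht : ND t) :
    Tendsto (fun X : ℕ => AS X (fun n : ℕ => CU k t (fun x => ((f x.toNat : ℤ) : ℂ)) n)) atTop
      (nhds 0) := by
  apply AS_of_nat
  have h1 := h (cubeP k t) (cubeP_ne k t ht)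
  have h2 : Tendsto (fun N : ℕ => (1 / (N : ℂ)) * ∑ n ∈ Icc 1 N,
      (((f ((cubeP k t).eval (n : ℤ)).natAbs : ℤ) : ℝ) : ℂ)) atTop (nhds 0) := by
    have h3 := (Complex.continuous_ofReal.tendsto 0).comp h1
    rw [Complex.ofReal_zero] at h3
    refine h3.congr fun N => ?_
    simp only [Function.comp]
    push_cast
    ring
  refine cesaro_eq ?_ h2
  filter_upwards [eventually_ge_atTop (∑ i, (t i).natAbs + 1)] with n hn
  rw [cubeP_eval, map_prod]
  unfold CU
  push_cast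
  refine prod_congr rfl fun s _ => ?_
  have h3 : |∑ i ∈ s, t i| ≤ ((∑ i, (t i).natAbs : ℕ) : ℤ) := by
    refine (abs_sum_le_sum_abs _ _).trans ?_
    push_cast
    refine sum_le_sum_of_subset_of_nonneg (subset_univ _) fun _ _ _ => abs_nonneg _
  have h4 : (0 : ℤ) ≤ (n : ℤ) + ∑ i ∈ s, t i := by
    have := (abs_le.1 h3).1
    have h5 : ((∑ i, (t i).natAbs : ℕ) : ℤ) + 1 ≤ n := by exact_mod_cast hn
    linarith
  have h5 : ((n : ℤ) + ∑ i ∈ s, t i).toNat = ((n : ℤ) + ∑ i ∈ s, t i).natAbs := by omega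
  rw [h5]
  unfold cj
  split_ifs
  · rfl
  · simp

end Pool.Agent.Q270.EA
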